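import Pool.Agent.H66.WExt

set_option autoImplicit false

namespace Pool.Agent.Results.MP_0b62d6_lc.Distributive
open Pool.Agent.H66.WExt

universe u

/-- Every Boolean `m`-algebra with the weak `m`-extension property is weakly `m`-distributive. -/
theorem result (m : Cardinal.{u}) (_hm : Cardinal.aleph0 ≤ m) (B : Type u) [BooleanAlgebra B]
    (hc : MComplete m B) (hB : WeakExt m B) : WeakDistrib m B :=
  main hc hB

end Pool.Agent.Results.MP_0b62d6_lc.Distributive
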